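import Pool.Agent.H62.GG.Itg

/-!
# CI1: the ideal of the point is locally generated by `r + 1` polynomials
-/

set_option autoImplicit false

namespace Pool.Agent.H62.GG

open NumberField Height Finset Polynomial Pool.Agent.H24.RD Pool.Agent.H23.RDD Pool.Agent.H29.RQ
  Pool.Agent.H29.SX Pool.Agent.H29.LG Pool.Agent.H64.GG

section

variable {K : Type} [Field K] {r : ℕ}

lemma pderiv_succ (F : MvPolynomial (Fin (r + 1)) K) :
    MvPolynomial.finSuccEquiv K r (MvPolynomial.pderiv 0 F) =
      Polynomial.derivative (MvPolynomial.finSuccEquiv K r F) := by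
  induction F using MvPolynomial.induction_on with
  | C a =>
    rw [MvPolynomial.pderiv_C, map_zero, MvPolynomial.finSuccEquiv_apply]
    simp
  | add p q hp hq => rw [map_add, map_add, hp, hq, map_add, map_add]
  | mul_X p i hp =>
    rw [Derivation.leibniz, map_add, smul_eq_mul, smul_eq_mul, map_mul, map_mul, hp, map_mul,
      Polynomial.derivative_mul, MvPolynomial.pderiv_X]
    refine Fin.cases ?_ (fun j => ?_) i
    · rw [Pi.single_eq_same, map_one, MvPolynomial.finSuccEquiv_X_zero,
        Polynomial.derivative_X]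
      ring
    · rw [Pi.single_eq_of_ne (Fin.succ_ne_zero j), map_zero,
        MvPolynomial.finSuccEquiv_X_succ, Polynomial.derivative_C]
      ring

end

section

variable {K M : Type} [Field K] [Field M] [Algebra K M] {w : AbsoluteValue M ℝ} {r : ℕ}

/-- polynomials with integral coefficients in the field of radicals -/
lemma common (hw : IsNonarchimedean w) (M₁ : IntermediateField K M)
    (θ : Fin r → M₁)
    (hMAX : ∀ b : M₁, w (b : M) ≤ 1 → ∃ u s : MvPolynomial (Fin r) K, Itg w u ∧ Itg w s ∧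
      w ((MvPolynomial.aeval θ s : M₁) : M) = 1 ∧
      b * MvPolynomial.aeval θ s = MvPolynomial.aeval θ u)
    (h : M₁[X]) (hh : ∀ k, w ((h.coeff k : M₁) : M) ≤ 1) :
    ∃ (s : MvPolynomial (Fin r) K) (U : (MvPolynomial (Fin r) K)[X]), Itg w s ∧
      w ((MvPolynomial.aeval θ s : M₁) : M) = 1 ∧ (∀ k, Itg w (U.coeff k)) ∧
      U.map (MvPolynomial.aeval θ : MvPolynomial (Fin r) K →ₐ[K] M₁).toRingHom =
        C (MvPolynomial.aeval θ s) * h := by
  have key : ∀ n : ℕ, ∃ (s : MvPolynomial (Fin r) K) (U : (MvPolynomial (Fin r) K)[X]),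
      Itg w s ∧ w ((MvPolynomial.aeval θ s : M₁) : M) = 1 ∧ (∀ k, Itg w (U.coeff k)) ∧
      U.map (MvPolynomial.aeval θ : MvPolynomial (Fin r) K →ₐ[K] M₁).toRingHom =
        C (MvPolynomial.aeval θ s) * ∑ k ∈ range n, C (h.coeff k) * X ^ k := by
    intro n
    induction n with
    | zero =>
      refine ⟨1, 0, itg_one, ?_, ?_, ?_⟩
      · rw [map_one, OneMemClass.coe_one, map_one]
      · intro k; rw [Polynomial.coeff_zero]; exact itg_zero
      · simp
    | succ n ih =>
      obtain ⟨s, U, hs, hs1, hU, hUm⟩ := ih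
      obtain ⟨u, t, hu, ht, ht1, hut⟩ := hMAX (h.coeff n) (hh n)
      refine ⟨s * t, C t * U + C (s * u) * X ^ n, itg_mul hw hs ht, ?_, ?_, ?_⟩
      · rw [map_mul, MulMemClass.coe_mul, map_mul, hs1, ht1, one_mul]
      · intro k
        rw [Polynomial.coeff_add, Polynomial.coeff_C_mul, Polynomial.coeff_C_mul_X_pow]
        refine itg_add hw (itg_mul hw ht (hU k)) ?_
        split_ifs
        · exact itg_mul hw hs hu
        · exact itg_zero
      · rw [Polynomial.map_add, Polynomial.map_mul, hUm, Polynomial.map_C, Polynomial.map_mul,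
          Polynomial.map_C, Polynomial.map_pow, Polynomial.map_X, Finset.sum_range_succ]
        have e1 : (MvPolynomial.aeval θ : MvPolynomial (Fin r) K →ₐ[K] M₁).toRingHom t =
            MvPolynomial.aeval θ t := rfl
        have e2 : (MvPolynomial.aeval θ : MvPolynomial (Fin r) K →ₐ[K] M₁).toRingHom (s * u) =
            MvPolynomial.aeval θ s * (h.coeff n * MvPolynomial.aeval θ t) := by
          rw [hut, ← map_mul]; rfl
        rw [e1, e2, map_mul (MvPolynomial.aeval θ) s t, map_mul, map_mul, map_mul]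
        ring
  obtain ⟨s, U, hs, hs1, hU, hUm⟩ := key (h.natDegree + 1)
  refine ⟨s, U, hs, hs1, hU, ?_⟩
  rw [hUm]
  congr 1
  exact (h.as_sum_range_C_mul_X_pow).symm

/-- the relations, for polynomials in one more variable -/
lemma ker_poly (hKER : T_KER) (hw : IsNonarchimedean w) (N : Fin r → ℕ) (c : Fin r → K)
    (θ : Fin r → M) (hN : ∀ i, 0 < N i) (hpow : ∀ i, θ i ^ N i = algebraMap K M (c i))
    (hθ : ∀ i, w (θ i) ≤ 1) (hind : Ind K θ N) (D : (MvPolynomial (Fin r) K)[X])
    (hD : ∀ k, Itg w (D.coeff k)) (hD0 : ∀ k, MvPolynomial.aeval θ (D.coeff k) = 0) :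
    ∃ H : Fin r → (MvPolynomial (Fin r) K)[X], (∀ i k, Itg w ((H i).coeff k)) ∧
      D = ∑ i, H i * C (MvPolynomial.X i ^ N i - MvPolynomial.C (c i)) := by
  choose Hk hk1 hk2 using fun k => hKER K M w hw r N c θ hN hpow hθ hind (D.coeff k) (hD k)
    (hD0 k)
  refine ⟨fun i => ∑ k ∈ range (D.natDegree + 1), C (Hk k i) * X ^ k, ?_, ?_⟩
  · intro i k
    rw [Polynomial.finsetSum_coeff]
    apply itg_sum hw
    intro j _
    rw [Polynomial.coeff_C_mul_X_pow]
    split_ifs
    · exact hk1 _ _
    · exact itg_zero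
  · conv_lhs => rw [D.as_sum_range_C_mul_X_pow]
    simp only [Finset.sum_mul]
    rw [Finset.sum_comm]
    apply Finset.sum_congr rfl
    intro k _
    conv_lhs => rw [hk2 k]
    rw [map_sum, Finset.sum_mul]
    apply Finset.sum_congr rfl
    intro i _
    rw [map_mul]
    ring

end

theorem pf_CI1 (hKER : T_KER) (hGAUS : T_GAUS) : T_CI1 := by
  intro K M _ _ _ _ _ w r N c θ β hN hpow hθ hind hβ hMAX
  have hw : IsNonarchimedean w.1 := fun x y => FinitePlace.add_le w x y
  have hθ1 : ∀ i, w.1 (θ i) ≤ 1 := fun i => (hθ i).le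
  set M₁ : IntermediateField K M := IntermediateField.adjoin K (Set.range θ) with hM1
  have hmem : ∀ i, θ i ∈ M₁ := fun i =>
    IntermediateField.subset_adjoin K _ (Set.mem_range_self i)
  set θ' : Fin r → M₁ := fun i => ⟨θ i, hmem i⟩ with hθ'
  have hae : ∀ u : MvPolynomial (Fin r) K,
      ((MvPolynomial.aeval θ' u : M₁) : M) = MvPolynomial.aeval θ u := by
    intro u
    have h1 : (M₁.val.comp (MvPolynomial.aeval θ')) = MvPolynomial.aeval θ := by
      apply MvPolynomial.algHom_ext
      intro i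
      simp [hθ']
    have h2 := congrArg (fun f => f u) h1
    exact h2
  have hmap : ∀ U : (MvPolynomial (Fin r) K)[X],
      U.map (MvPolynomial.aeval θ : MvPolynomial (Fin r) K →ₐ[K] M).toRingHom =
      (U.map (MvPolynomial.aeval θ' : MvPolynomial (Fin r) K →ₐ[K] M₁).toRingHom).map
        (algebraMap M₁ M) := by
    intro U
    rw [Polynomial.map_map]
    congr 1
    exact RingHom.ext fun u => (hae u).symm
  have hMAX' : ∀ b : M₁, w.1 (b : M) ≤ 1 → ∃ u s : MvPolynomial (Fin r) K, Itg w.1 u ∧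
      Itg w.1 s ∧ w.1 ((MvPolynomial.aeval θ' s : M₁) : M) = 1 ∧
      b * MvPolynomial.aeval θ' s = MvPolynomial.aeval θ' u := by
    intro b hb
    obtain ⟨u, s, hu, hs, hs1, hus⟩ := hMAX b.1 b.2 hb
    refine ⟨u, s, hu, hs, by rw [hae]; exact hs1, ?_⟩
    apply Subtype.ext
    rw [MulMemClass.coe_mul, hae, hae]
    exact hus
  -- the absolute value on the field of radicals
  set w₁ : AbsoluteValue M₁ ℝ := w.1.comp (algebraMap M₁ M).injective with hw1
  have hw1a : ∀ b : M₁, w₁ b = w.1 (b : M) := fun b => rfl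
  have hw1n : IsNonarchimedean w₁ := fun x y => by
    rw [hw1a, hw1a, hw1a]
    exact hw _ _
  -- the normalized minimal polynomial
  have hint : IsIntegral M₁ β := Algebra.IsIntegral.isIntegral β
  set g0 : M₁[X] := minpoly M₁ β with hg0
  have hg0m : g0.Monic := minpoly.monic hint
  have hg0ne : g0 ≠ 0 := hg0m.ne_zero
  obtain ⟨k0, hk0, hk0m⟩ := Finset.exists_max_image g0.support (fun k => w₁ (g0.coeff k))
    (Polynomial.support_nonempty.2 hg0ne)
  have hk0ne : g0.coeff k0 ≠ 0 := Polynomial.mem_support_iff.1 hk0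
  have hk0p : 0 < w₁ (g0.coeff k0) := w₁.pos hk0ne
  set g1 : M₁[X] := C (g0.coeff k0)⁻¹ * g0 with hg1
  have hg1c : ∀ k, w₁ (g1.coeff k) ≤ 1 := by
    intro k
    rw [hg1, Polynomial.coeff_C_mul, map_mul, map_inv₀]
    by_cases hk : k ∈ g0.support
    · rw [inv_mul_le_iff₀ hk0p, mul_one]
      exact hk0m k hk
    · rw [Polynomial.notMem_support_iff.1 hk, map_zero, mul_zero]
      norm_num
  have hg1one : ∃ k, w₁ (g1.coeff k) = 1 := by
    refine ⟨k0, ?_⟩
    rw [hg1, Polynomial.coeff_C_mul, map_mul, map_inv₀]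
    exact inv_mul_cancel₀ hk0p.ne'
  have hg1β : Polynomial.aeval β g1 = 0 := by
    rw [hg1, map_mul, hg0, minpoly.aeval, mul_zero]
  have hg1d : Polynomial.aeval β (Polynomial.derivative g1) ≠ 0 := by
    have hsep : g0.Separable := (minpoly.irreducible hint).separable
    have h1 := hsep.aeval_derivative_ne_zero (minpoly.aeval M₁ β)
    rw [hg1, Polynomial.derivative_C_mul, map_mul, Polynomial.aeval_C]
    refine mul_ne_zero ?_ h1
    rw [map_ne_zero_iff _ (algebraMap M₁ M).injective]
    exact inv_ne_zero hk0ne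
  obtain ⟨s0, U0, hs0, hs01, hU0, hU0m⟩ := common hw M₁ θ' hMAX' g1 hg1c
  have hs0ne : (MvPolynomial.aeval θ s0 : M) ≠ 0 := by
    intro h
    rw [hae, h, map_zero] at hs01
    exact zero_ne_one hs01
  refine ⟨(MvPolynomial.finSuccEquiv K r).symm U0, ?_, ?_, ?_, ?_⟩
  · rw [itg_succ]
    intro k
    rw [AlgEquiv.apply_symm_apply]
    exact hU0 k
  · rw [aeval_succ, AlgEquiv.apply_symm_apply, hmap, hU0m, Polynomial.eval_map_algebraMap,
      map_mul, hg1β, mul_zero]
  · rw [aeval_succ, pderiv_succ, AlgEquiv.apply_symm_apply, ← Polynomial.derivative_map, hmap,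
      hU0m, Polynomial.derivative_map, Polynomial.eval_map_algebraMap,
      Polynomial.derivative_C_mul, map_mul, Polynomial.aeval_C]
    refine mul_ne_zero ?_ hg1d
    show ((MvPolynomial.aeval θ' s0 : M₁) : M) ≠ 0
    rw [hae]
    exact hs0ne
  · intro G hG hG0
    set GG := MvPolynomial.finSuccEquiv K r G with hGG
    set Gt : M₁[X] :=
      GG.map (MvPolynomial.aeval θ' : MvPolynomial (Fin r) K →ₐ[K] M₁).toRingHom with hGt
    have hGtβ : Polynomial.aeval β Gt = 0 := by
      rw [aeval_succ, ← hGG, hmap, Polynomial.eval_map_algebraMap] at hG0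
      exact hG0
    have hdvd : g1 ∣ Gt := by
      have h1 : g0 ∣ Gt := minpoly.dvd M₁ β hGtβ
      have h2 : g1 ∣ g0 := by
        refine ⟨C (g0.coeff k0), ?_⟩
        rw [hg1, mul_comm, ← mul_assoc, ← map_mul, mul_inv_cancel₀ hk0ne, map_one, one_mul]
      exact h2.trans h1
    obtain ⟨H1, hH1⟩ := hdvd
    have hGtc : ∀ k, w₁ (Gt.coeff k) ≤ 1 := by
      intro k
      rw [hGt, Polynomial.coeff_map, hw1a]
      have h1 : (((MvPolynomial.aeval θ' : MvPolynomial (Fin r) K →ₐ[K] M₁).toRingHom
          (GG.coeff k) : M₁) : M) = MvPolynomial.aeval θ (GG.coeff k) := hae _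
      rw [h1]
      exact itg_aeval hw ((itg_succ G).1 hG k) hθ1
    have hH1c : ∀ k, w₁ (H1.coeff k) ≤ 1 :=
      hGAUS M₁ w₁ hw1n g1 H1 hg1c hg1one (by rw [← hH1]; exact hGtc)
    obtain ⟨s1, V, hs1, hs11, hV, hVm⟩ := common hw M₁ θ' hMAX' H1 hH1c
    have hDm : (C (s0 * s1) * GG - U0 * V).map
        (MvPolynomial.aeval θ' : MvPolynomial (Fin r) K →ₐ[K] M₁).toRingHom = 0 := by
      have e1 : (MvPolynomial.aeval θ' : MvPolynomial (Fin r) K →ₐ[K] M₁).toRingHom (s0 * s1) =
          MvPolynomial.aeval θ' s0 * MvPolynomial.aeval θ' s1 := by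
        rw [← map_mul]; rfl
      rw [Polynomial.map_sub, Polynomial.map_mul, Polynomial.map_mul, Polynomial.map_C, e1,
        ← hGt, hU0m, hVm, hH1, map_mul]
      ring
    have hDc : ∀ k, Itg w.1 ((C (s0 * s1) * GG - U0 * V).coeff k) := by
      intro k
      rw [Polynomial.coeff_sub, Polynomial.coeff_C_mul, Polynomial.coeff_mul]
      refine itg_sub hw (itg_mul hw (itg_mul hw hs0 hs1) ((itg_succ G).1 hG k)) ?_
      exact itg_sum hw _ fun x _ => itg_mul hw (hU0 _) (hV _)
    have hD0 : ∀ k, MvPolynomial.aeval θ ((C (s0 * s1) * GG - U0 * V).coeff k) = 0 := by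
      intro k
      have h1 := congrArg (fun f => f.coeff k) hDm
      simp only [Polynomial.coeff_map, Polynomial.coeff_zero] at h1
      rw [← hae]
      have h2 : MvPolynomial.aeval θ' ((C (s0 * s1) * GG - U0 * V).coeff k) = 0 := h1
      rw [h2]; rfl
    obtain ⟨H, hH, hHD⟩ := ker_poly hKER hw N c θ hN hpow hθ1 hind _ hDc hD0
    refine ⟨(MvPolynomial.finSuccEquiv K r).symm (C (s0 * s1)),
      Fin.cons ((MvPolynomial.finSuccEquiv K r).symm V)
        (fun i => (MvPolynomial.finSuccEquiv K r).symm (H i)), ?_, ?_, ?_, ?_⟩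
    · rw [itg_succ]
      intro k
      rw [AlgEquiv.apply_symm_apply, Polynomial.coeff_C]
      split_ifs
      · exact itg_mul hw hs0 hs1
      · exact itg_zero
    · rw [aeval_succ, AlgEquiv.apply_symm_apply, Polynomial.map_C, Polynomial.eval_C]
      have h1 : (MvPolynomial.aeval θ : MvPolynomial (Fin r) K →ₐ[K] M).toRingHom (s0 * s1) =
          MvPolynomial.aeval θ s0 * MvPolynomial.aeval θ s1 := by
        rw [← map_mul]; rfl
      rw [h1, map_mul, ← hae s0, ← hae s1, hs01, hs11, one_mul]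
    · intro i
      refine Fin.cases ?_ (fun j => ?_) i
      · rw [Fin.cons_zero, itg_succ]
        intro k
        rw [AlgEquiv.apply_symm_apply]
        exact hV k
      · rw [Fin.cons_succ, itg_succ]
        intro k
        rw [AlgEquiv.apply_symm_apply]
        exact hH j k
    · apply (MvPolynomial.finSuccEquiv K r).injective
      rw [map_mul, AlgEquiv.apply_symm_apply, map_sum, Fin.sum_univ_succ]
      simp only [fam, Fin.cons_zero, Fin.cons_succ, map_mul, AlgEquiv.apply_symm_apply, map_sub,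
        map_pow, MvPolynomial.finSuccEquiv_X_succ]
      have e1 : ∀ a : K, MvPolynomial.finSuccEquiv K r (MvPolynomial.C a) =
          C (MvPolynomial.C a) := by
        intro a
        rw [MvPolynomial.finSuccEquiv_apply]
        simp
      simp only [e1]
      have e2 : C (s0 * s1) * GG = V * U0 + ∑ i, H i *
          C (MvPolynomial.X i ^ N i - MvPolynomial.C (c i)) := by
        rw [← hHD]; ring
      rw [← map_mul, e2]
      congr 1
      apply Finset.sum_congr rfl
      intro i _
      rw [map_sub, map_pow]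

end Pool.Agent.H62.GG
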