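import Pool.Agent.H62.GG.Itg

/-!
# CI2: the polynomials with vanishing jets are locally in the power of the ideal
-/

set_option autoImplicit false

namespace Pool.Agent.H62.GG

open NumberField Height Finset Polynomial Pool.Agent.H24.RD Pool.Agent.H23.RDD Pool.Agent.H29.RQ
  Pool.Agent.H29.SX Pool.Agent.H29.LG Pool.Agent.H64.GG

section jets

variable {K M : Type} [Field K] [Field M] [Algebra K M] {m : ℕ} (P : Fin m → M)

lemma JJ_eq (κ : Fin m → ℕ) (F : MvPolynomial (Fin m) K) (t : Finset (Fin m →₀ ℕ))
    (ht : F.support ⊆ t) : JJ P κ F = ∑ n ∈ t,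
      algebraMap K M (F.coeff n) * ((∏ i, ((n i : ℕ) : M) ^ κ i) * ∏ i, P i ^ n i) := by
  unfold JJ
  apply Finset.sum_subset ht
  intro n _ hn
  rw [MvPolynomial.notMem_support_iff.1 hn, map_zero, zero_mul]

lemma JJ_add (κ : Fin m → ℕ) (F G : MvPolynomial (Fin m) K) :
    JJ P κ (F + G) = JJ P κ F + JJ P κ G := by
  classical
  rw [JJ_eq P κ F (F.support ∪ G.support) subset_union_left,
    JJ_eq P κ G (F.support ∪ G.support) subset_union_right,
    JJ_eq P κ (F + G) (F.support ∪ G.support) MvPolynomial.support_add,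
    ← Finset.sum_add_distrib]
  apply Finset.sum_congr rfl
  intro n _
  rw [MvPolynomial.coeff_add, map_add]
  ring

lemma JJ_zero_poly (κ : Fin m → ℕ) : JJ P κ (0 : MvPolynomial (Fin m) K) = 0 := by
  unfold JJ
  rw [MvPolynomial.support_zero, Finset.sum_empty]

lemma JJ_sum (κ : Fin m → ℕ) {ι : Type} (s : Finset ι) (F : ι → MvPolynomial (Fin m) K) :
    JJ P κ (∑ i ∈ s, F i) = ∑ i ∈ s, JJ P κ (F i) := by
  classical
  induction s using Finset.induction_on with
  | empty => rw [Finset.sum_empty, Finset.sum_empty, JJ_zero_poly]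
  | insert a s ha ih => rw [Finset.sum_insert ha, Finset.sum_insert ha, JJ_add, ih]

lemma JJ_monomial (κ : Fin m → ℕ) (n : Fin m →₀ ℕ) (a : K) :
    JJ P κ (MvPolynomial.monomial n a) =
      algebraMap K M a * ((∏ i, ((n i : ℕ) : M) ^ κ i) * ∏ i, P i ^ n i) := by
  classical
  rw [JJ_eq P κ _ {n} MvPolynomial.support_monomial_subset, Finset.sum_singleton,
    MvPolynomial.coeff_monomial, if_pos rfl]

lemma JJ_zero (F : MvPolynomial (Fin m) K) : JJ P 0 F = MvPolynomial.aeval P F := by
  induction F using MvPolynomial.induction_on' with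
  | monomial n a =>
    rw [JJ_monomial, MvPolynomial.aeval_monomial, Finsupp.prod_fintype _ _ (by simp)]
    simp
  | add p q hp hq => rw [JJ_add, hp, hq, map_add]

/-- the Euler derivations -/
noncomputable def De (i : Fin m) (F : MvPolynomial (Fin m) K) : MvPolynomial (Fin m) K :=
  MvPolynomial.X i * MvPolynomial.pderiv i F

lemma De_add (i : Fin m) (F G : MvPolynomial (Fin m) K) : De i (F + G) = De i F + De i G := by
  unfold De; rw [map_add]; ring

lemma De_mul (i : Fin m) (F G : MvPolynomial (Fin m) K) :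
    De i (F * G) = De i F * G + F * De i G := by
  unfold De
  rw [Derivation.leibniz, smul_eq_mul, smul_eq_mul]
  ring

lemma JJ_De (κ : Fin m → ℕ) (i : Fin m) (F : MvPolynomial (Fin m) K) :
    JJ P κ (De i F) = JJ P (κ + Pi.single i 1) F := by
  induction F using MvPolynomial.induction_on' with
  | monomial n a =>
    unfold De
    rw [MvPolynomial.X_mul_pderiv_monomial, ← map_nsmul, JJ_monomial, JJ_monomial,
      nsmul_eq_mul, map_mul, map_natCast]
    have h : (∏ j, ((n j : ℕ) : M) ^ (κ + Pi.single i 1 : Fin m → ℕ) j) =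
        (∏ j, ((n j : ℕ) : M) ^ κ j) * ((n i : ℕ) : M) := by
      have h2 : ∀ j, ((n j : ℕ) : M) ^ (κ + Pi.single i 1 : Fin m → ℕ) j =
          ((n j : ℕ) : M) ^ κ j * ((n j : ℕ) : M) ^ (Pi.single i 1 : Fin m → ℕ) j := by
        intro j
        rw [Pi.add_apply, pow_add]
      simp only [h2]
      rw [Finset.prod_mul_distrib]
      congr 1
      rw [Finset.prod_eq_single i]
      · rw [Pi.single_eq_same, pow_one]
      · intro j _ hj
        rw [Pi.single_eq_of_ne hj, pow_zero]
      · intro h; exact absurd (Finset.mem_univ _) h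
    rw [h]
    ring
  | add p q hp hq => rw [De_add, JJ_add, hp, hq, JJ_add]

/-- a multi-index of positive sum -/
lemma exists_single {s : ℕ} (κ : Fin m → ℕ) (h : ∑ i, κ i = s + 1) :
    ∃ (i : Fin m) (κ' : Fin m → ℕ), κ = κ' + Pi.single i 1 ∧ ∑ i, κ' i = s := by
  have hex : ∃ i, κ i ≠ 0 := by
    by_contra hc
    push Not at hc
    simp [hc] at h
  obtain ⟨i, hi⟩ := hex
  have h1 : κ = (κ - Pi.single i 1) + Pi.single i 1 := by
    funext j
    by_cases hj : j = i
    · subst hj
      simp only [Pi.add_apply, Pi.sub_apply, Pi.single_eq_same]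
      omega
    · simp only [Pi.add_apply, Pi.sub_apply, Pi.single_eq_of_ne hj]
      omega
  refine ⟨i, κ - Pi.single i 1, h1, ?_⟩
  have h2 : ∑ j, κ j = ∑ j, ((κ - Pi.single i 1 : Fin m → ℕ) j + (Pi.single i 1 : Fin m → ℕ) j) := by
    conv_lhs => rw [h1]
    rfl
  rw [Finset.sum_add_distrib, Finset.sum_pi_single'] at h2
  simp only [Finset.mem_univ, if_true] at h2
  omega

/-- products of polynomials with vanishing jets -/
lemma JJ_mul_zero (s : ℕ) : ∀ (S F : MvPolynomial (Fin m) K),
    (∀ κ : Fin m → ℕ, ∑ i, κ i ≤ s → JJ P κ F = 0) →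
    ∀ κ : Fin m → ℕ, ∑ i, κ i ≤ s → JJ P κ (S * F) = 0 := by
  induction s with
  | zero =>
    intro S F hF κ hκ
    have h0 : κ = 0 := by
      funext i
      have := Finset.sum_eq_zero_iff.1 (Nat.le_zero.1 hκ) i (Finset.mem_univ i)
      exact this
    rw [h0, JJ_zero, map_mul]
    have := hF 0 (by simp)
    rw [JJ_zero] at this
    rw [this, mul_zero]
  | succ s ih =>
    intro S F hF κ hκ
    rcases Nat.lt_or_ge (∑ i, κ i) (s + 1) with hlt | hge
    · exact ih S F (fun κ' h => hF κ' (by omega)) κ (by omega)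
    · obtain ⟨i, κ', h1, h2⟩ := exists_single κ (by omega : ∑ i, κ i = s + 1)
      rw [h1, ← JJ_De, De_mul, JJ_add]
      have a1 : JJ P κ' (De i S * F) = 0 :=
        ih (De i S) F (fun κ'' h => hF κ'' (by omega)) κ' (by omega)
      have a2 : JJ P κ' (S * De i F) = 0 := by
        refine ih S (De i F) (fun κ'' h => ?_) κ' (by omega)
        rw [JJ_De]
        apply hF
        have : ∑ j, (κ'' + Pi.single i 1 : Fin m → ℕ) j = ∑ j, κ'' j + 1 := by
          simp only [Pi.add_apply]
          rw [Finset.sum_add_distrib, Finset.sum_pi_single']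
          simp
        omega
      rw [a1, a2, add_zero]

end jets

section good

variable {K M : Type} [Field K] [Field M] [Algebra K M] {m : ℕ}

/-- the conclusion of CI2 -/
def Gd (w : AbsoluteValue M ℝ) (P : Fin m → M) (fm : Fin m → MvPolynomial (Fin m) K) (T : ℕ)
    (F : MvPolynomial (Fin m) K) : Prop :=
  ∃ (S : MvPolynomial (Fin m) K) (H : (Fin m → ℕ) → MvPolynomial (Fin m) K), Itg w S ∧
    w (MvPolynomial.aeval P S) = 1 ∧ (∀ e, Itg w (H e)) ∧
    S * F = ∑ e ∈ Finset.piAntidiag univ T, (∏ i, fm i ^ e i) * H e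

variable {w : AbsoluteValue M ℝ} {P : Fin m → M} {fm : Fin m → MvPolynomial (Fin m) K} {T : ℕ}

lemma gd_zero : Gd w P fm T 0 := by
  refine ⟨1, fun _ => 0, itg_one, by rw [map_one, map_one], fun _ => itg_zero, ?_⟩
  simp

lemma gd_add (hw : IsNonarchimedean w) {F G : MvPolynomial (Fin m) K} (hF : Gd w P fm T F)
    (hG : Gd w P fm T G) : Gd w P fm T (F + G) := by
  obtain ⟨S, H, hS, hS1, hH, hSF⟩ := hF
  obtain ⟨S', H', hS', hS1', hH', hSG⟩ := hG
  refine ⟨S * S', fun e => S' * H e + S * H' e, itg_mul hw hS hS', ?_,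
    fun e => itg_add hw (itg_mul hw hS' (hH e)) (itg_mul hw hS (hH' e)), ?_⟩
  · rw [map_mul, map_mul, hS1, hS1', one_mul]
  · have : S * S' * (F + G) = S' * (S * F) + S * (S' * G) := by ring
    rw [this, hSF, hSG, Finset.mul_sum, Finset.mul_sum, ← Finset.sum_add_distrib]
    apply Finset.sum_congr rfl
    intro e _
    ring

lemma gd_sum (hw : IsNonarchimedean w) {ι : Type} (s : Finset ι)
    {F : ι → MvPolynomial (Fin m) K} (hF : ∀ i ∈ s, Gd w P fm T (F i)) :
    Gd w P fm T (∑ i ∈ s, F i) := by
  classical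
  induction s using Finset.induction_on with
  | empty => rw [Finset.sum_empty]; exact gd_zero
  | insert a s ha ih =>
    rw [Finset.sum_insert ha]
    exact gd_add hw (hF a (Finset.mem_insert_self _ _))
      (ih fun i hi => hF i (Finset.mem_insert_of_mem hi))

lemma gd_of_mul (hw : IsNonarchimedean w) {S F : MvPolynomial (Fin m) K} (hS : Itg w S)
    (hS1 : w (MvPolynomial.aeval P S) = 1) (h : Gd w P fm T (S * F)) : Gd w P fm T F := by
  obtain ⟨S', H, hS', hS1', hH, hSF⟩ := h
  refine ⟨S' * S, H, itg_mul hw hS' hS, ?_, hH, ?_⟩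
  · rw [map_mul, map_mul, hS1, hS1', one_mul]
  · rw [mul_assoc]; exact hSF

lemma gd_base (e : Fin m → ℕ) (he : ∑ i, e i = T) {H : MvPolynomial (Fin m) K}
    (hH : Itg w H) : Gd w P fm T ((∏ i, fm i ^ e i) * H) := by
  classical
  refine ⟨1, fun f => if f = e then H else 0, itg_one, by rw [map_one, map_one], ?_, ?_⟩
  · intro f
    show Itg w (if f = e then H else 0)
    split_ifs
    · exact hH
    · exact itg_zero
  · rw [one_mul, Finset.sum_eq_single e]
    · beta_reduce
      rw [if_pos rfl]
    · intro f _ hf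
      beta_reduce
      rw [if_neg hf, mul_zero]
    · intro h
      exact absurd (Finset.mem_piAntidiag.2 ⟨he, fun i _ => Finset.mem_univ i⟩) h

lemma prod_single (e : Fin m → ℕ) (i : Fin m) :
    (∏ j, fm j ^ (e + Pi.single i 1 : Fin m → ℕ) j) = (∏ j, fm j ^ e j) * fm i := by
  have h2 : ∀ j, fm j ^ (e + Pi.single i 1 : Fin m → ℕ) j =
      fm j ^ e j * fm j ^ (Pi.single i 1 : Fin m → ℕ) j := by
    intro j
    rw [Pi.add_apply, pow_add]
  simp only [h2]
  rw [Finset.prod_mul_distrib]
  congr 1
  rw [Finset.prod_eq_single i]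
  · rw [Pi.single_eq_same, pow_one]
  · intro j _ hj
    rw [Pi.single_eq_of_ne hj, pow_zero]
  · intro h; exact absurd (Finset.mem_univ _) h

end good

/-- independence of the products of triangular linear forms -/
lemma forms_indep {M : Type} [Field M] {r : ℕ} (a : Fin (r + 1) → M) (c : Fin r → M)
    (ha : a 0 ≠ 0) (hc : ∀ i, c i ≠ 0) (T : ℕ) (v : (Fin (r + 1) → ℕ) → M)
    (h : ∑ e ∈ Finset.piAntidiag (univ : Finset (Fin (r + 1))) T, MvPolynomial.C (v e) *
      ∏ i, ((Fin.cons (∑ l, MvPolynomial.C (a l) * MvPolynomial.X l)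
        (fun i => MvPolynomial.C (c i) * MvPolynomial.X i.succ) :
          Fin (r + 1) → MvPolynomial (Fin (r + 1)) M) i) ^ e i = 0) :
    ∀ e ∈ Finset.piAntidiag (univ : Finset (Fin (r + 1))) T, v e = 0 := by
  classical
  set L : Fin (r + 1) → MvPolynomial (Fin (r + 1)) M :=
    Fin.cons (∑ l, MvPolynomial.C (a l) * MvPolynomial.X l)
      (fun i => MvPolynomial.C (c i) * MvPolynomial.X i.succ) with hL
  set R : Fin (r + 1) → MvPolynomial (Fin (r + 1)) M :=
    Fin.cons (MvPolynomial.C (a 0)⁻¹ * (MvPolynomial.X 0 -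
        ∑ l : Fin r, MvPolynomial.C (a l.succ * (c l)⁻¹) * MvPolynomial.X l.succ))
      (fun i => MvPolynomial.C (c i)⁻¹ * MvPolynomial.X i.succ) with hR
  have hRL : ∀ i, MvPolynomial.aeval R (L i) = MvPolynomial.X i := by
    intro i
    refine Fin.cases ?_ (fun j => ?_) i
    · rw [hL, Fin.cons_zero, map_sum, Fin.sum_univ_succ]
      simp only [map_mul, MvPolynomial.aeval_C, MvPolynomial.aeval_X,
        MvPolynomial.algebraMap_eq]
      rw [hR, Fin.cons_zero]
      simp only [Fin.cons_succ]
      have e1 : ∀ l : Fin r, MvPolynomial.C (σ := Fin (r + 1)) (a l.succ) *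
          (MvPolynomial.C (c l)⁻¹ * MvPolynomial.X l.succ) =
          MvPolynomial.C (a l.succ * (c l)⁻¹) * MvPolynomial.X l.succ := by
        intro l
        rw [MvPolynomial.C_mul, mul_assoc]
      simp only [e1]
      rw [← mul_assoc, ← MvPolynomial.C_mul, mul_inv_cancel₀ ha, MvPolynomial.C_1, one_mul]
      ring
    · rw [hL, Fin.cons_succ, map_mul, MvPolynomial.aeval_C, MvPolynomial.aeval_X, hR,
        Fin.cons_succ, MvPolynomial.algebraMap_eq, ← mul_assoc, ← MvPolynomial.C_mul,
        mul_inv_cancel₀ (hc j), MvPolynomial.C_1, one_mul]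
  have h2 := congrArg (MvPolynomial.aeval R) h
  rw [map_sum, map_zero] at h2
  simp only [map_mul, map_prod, map_pow, hRL, MvPolynomial.aeval_C,
    MvPolynomial.algebraMap_eq] at h2
  intro e he
  have h3 := congrArg (fun F => MvPolynomial.coeff (Finsupp.equivFunOnFinite.symm e) F) h2
  simp only [MvPolynomial.coeff_zero] at h3
  rw [MvPolynomial.coeff_sum, Finset.sum_eq_single e] at h3
  · rw [MvPolynomial.coeff_C_mul] at h3
    have h4 : (∏ i, (MvPolynomial.X i : MvPolynomial (Fin (r + 1)) M) ^ e i) =
        MvPolynomial.monomial (Finsupp.equivFunOnFinite.symm e) 1 := by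
      rw [MvPolynomial.monomial_eq, MvPolynomial.C_1, one_mul,
        Finsupp.prod_fintype _ _ (by simp)]
      rfl
    rw [h4, MvPolynomial.coeff_monomial, if_pos rfl, mul_one] at h3
    exact h3
  · intro f _ hf
    have h4 : (∏ i, (MvPolynomial.X i : MvPolynomial (Fin (r + 1)) M) ^ f i) =
        MvPolynomial.monomial (Finsupp.equivFunOnFinite.symm f) 1 := by
      rw [MvPolynomial.monomial_eq, MvPolynomial.C_1, one_mul,
        Finsupp.prod_fintype _ _ (by simp)]
      rfl
    rw [MvPolynomial.coeff_C_mul, h4, MvPolynomial.coeff_monomial, if_neg, mul_zero]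
    intro hc2
    exact hf (Finsupp.equivFunOnFinite.symm.injective hc2)
  · intro h; exact absurd he h

theorem pf_CI2 (hLED : T_LED) : T_CI2 := by
  intro K M _ _ _ _ _ w r N c θ β hN hpow hθ hβ0 hβ1 g hg hg0 hg1 hgen T
  have hw : IsNonarchimedean w.1 := fun x y => FinitePlace.add_le w x y
  set P : Fin (r + 1) → M := Fin.cons β θ with hP
  have hfam0 : ∀ i, MvPolynomial.aeval P (fam N c g i) = 0 := by
    intro i
    refine Fin.cases ?_ (fun j => ?_) i
    · exact hg0
    · show MvPolynomial.aeval P (MvPolynomial.X j.succ ^ N j - MvPolynomial.C (c j)) = 0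
      rw [map_sub, map_pow, MvPolynomial.aeval_X, MvPolynomial.aeval_C, hP, Fin.cons_succ,
        hpow, sub_self]
  have hθ0 : ∀ i, θ i ≠ 0 := by
    intro i h
    have := hθ i
    rw [h, map_zero] at this
    exact zero_ne_one this
  -- the linear forms
  have hlin : ∀ i, (∑ l, MvPolynomial.C (JJ P (Pi.single l 1) (fam N c g i)) *
      MvPolynomial.X l : MvPolynomial (Fin (r + 1)) M) =
      (Fin.cons (∑ l, MvPolynomial.C (JJ P (Pi.single l 1) g) * MvPolynomial.X l)
        (fun i => MvPolynomial.C ((N i : M) * θ i ^ N i) * MvPolynomial.X i.succ) :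
          Fin (r + 1) → MvPolynomial (Fin (r + 1)) M) i := by
    intro i
    refine Fin.cases ?_ (fun j => ?_) i
    · rfl
    · rw [Fin.cons_succ]
      have h1 : ∀ l, JJ P (Pi.single l 1) (fam N c g j.succ) =
          if l = j.succ then (N j : M) * θ j ^ N j else 0 := by
        intro l
        have h2 : (Pi.single l 1 : Fin (r + 1) → ℕ) = 0 + Pi.single l 1 := by rw [zero_add]
        rw [h2, ← JJ_De, JJ_zero]
        show MvPolynomial.aeval P (MvPolynomial.X l * MvPolynomial.pderiv l
          (MvPolynomial.X j.succ ^ N j - MvPolynomial.C (c j))) = _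
        rw [map_sub, MvPolynomial.pderiv_C, sub_zero, Derivation.leibniz_pow,
          MvPolynomial.pderiv_X]
        by_cases hl : l = j.succ
        · rw [if_pos hl, hl, Pi.single_eq_same]
          simp only [map_mul, MvPolynomial.aeval_X, map_smul, smul_eq_mul, map_pow, map_one,
            mul_one, nsmul_eq_mul, map_natCast]
          rw [hP, Fin.cons_succ]
          have h3 : θ j ^ N j = θ j * θ j ^ (N j - 1) := by
            rw [← pow_succ']
            congr 1
            have := hN j
            omega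
          rw [h3]; ring
        · rw [if_neg hl, Pi.single_eq_of_ne (fun h => hl h.symm)]
          simp
      simp only [h1]
      rw [Finset.sum_eq_single j.succ]
      · rw [if_pos rfl]
      · intro l _ hl
        rw [if_neg hl, MvPolynomial.C_0, zero_mul]
      · intro h; exact absurd (Finset.mem_univ _) h
  have ha0 : JJ P (Pi.single 0 1) g ≠ 0 := by
    have h2 : (Pi.single 0 1 : Fin (r + 1) → ℕ) = 0 + Pi.single 0 1 := by rw [zero_add]
    rw [h2, ← JJ_De, JJ_zero]
    show MvPolynomial.aeval P (MvPolynomial.X 0 * MvPolynomial.pderiv 0 g) ≠ 0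
    rw [map_mul, MvPolynomial.aeval_X]
    exact mul_ne_zero hβ0 hg1
  have hc0 : ∀ i, (N i : M) * θ i ^ N i ≠ 0 := by
    intro i
    refine mul_ne_zero ?_ (pow_ne_zero _ (hθ0 i))
    exact_mod_cast (hN i).ne'
  have main : ∀ F : MvPolynomial (Fin (r + 1)) K, Itg w.1 F →
      (∀ κ : Fin (r + 1) → ℕ, ∑ i, κ i < T → JJ P κ F = 0) → Gd w.1 P (fam N c g) T F := by
    induction T with
    | zero =>
      intro F hF _
      have := gd_base (w := w.1) (P := P) (fm := fam N c g) (T := 0) (fun _ => 0) (by simp) hF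
      simpa using this
    | succ T ih =>
      intro F hF hjet
      obtain ⟨S, H, hS, hS1, hH, hSF⟩ := ih F hF (fun κ hκ => hjet κ (by omega))
      -- the values of the coefficients vanish
      have hval : ∀ e ∈ Finset.piAntidiag (univ : Finset (Fin (r + 1))) T,
          MvPolynomial.aeval P (H e) = 0 := by
        apply forms_indep (fun l => JJ P (Pi.single l 1) g) (fun i => (N i : M) * θ i ^ N i)
          ha0 hc0 T (fun e => MvPolynomial.aeval P (H e))
        simp only [← hlin]
        ext κ
        rw [MvPolynomial.coeff_sum, MvPolynomial.coeff_zero]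
        simp only [MvPolynomial.coeff_C_mul]
        by_cases hκ : ∑ i, κ i = T
        · have h1 : JJ P (fun i => κ i) (S * F) = 0 :=
            JJ_mul_zero P T S F (fun κ' h => hjet κ' (by omega)) _ (by
              show ∑ i, κ i ≤ T
              omega)
          rw [hSF, JJ_sum] at h1
          have h2 : ∀ e ∈ Finset.piAntidiag (univ : Finset (Fin (r + 1))) T,
              JJ P (fun i => κ i) ((∏ i, fam N c g i ^ e i) * H e) =
              (∏ i, ((κ i).factorial : M)) * (MvPolynomial.aeval P (H e) *
                MvPolynomial.coeff κ (∏ i, (∑ l, MvPolynomial.C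
                  (JJ P (Pi.single l 1) (fam N c g i)) * MvPolynomial.X l) ^ e i)) := by
            intro e he
            have h3 := (hLED K M (r + 1) P (fam N c g) hfam0 e (fun i => κ i) (H e)).2
              (by rw [hκ]; exact (Finset.mem_piAntidiag.1 he).1.symm)
            rw [h3]
            have h4 : Finsupp.equivFunOnFinite.symm (fun i => κ i) = κ := by
              ext i; rfl
            rw [h4]
            ring
          rw [Finset.sum_congr rfl h2, ← Finset.mul_sum] at h1
          have h5 : (∏ i, ((κ i).factorial : M)) ≠ 0 :=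
            Finset.prod_ne_zero_iff.2 fun i _ => by exact_mod_cast (κ i).factorial_ne_zero
          exact (mul_eq_zero.1 h1).resolve_left h5
        · apply Finset.sum_eq_zero
          intro e he
          have h1 : (∏ i, (∑ l, MvPolynomial.C (JJ P (Pi.single l 1) (fam N c g i)) *
              MvPolynomial.X l : MvPolynomial (Fin (r + 1)) M) ^ e i).IsHomogeneous
              (∑ i, 1 * e i) := by
            apply MvPolynomial.IsHomogeneous.prod
            intro i _
            apply MvPolynomial.IsHomogeneous.pow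
            apply MvPolynomial.IsHomogeneous.sum
            intro l _
            have := (MvPolynomial.isHomogeneous_C (Fin (r + 1))
              (JJ P (Pi.single l 1) (fam N c g i))).mul (MvPolynomial.isHomogeneous_X M l)
            rwa [zero_add] at this
          have h2 : (∑ i, 1 * e i) = T := by
            simp only [one_mul]
            exact (Finset.mem_piAntidiag.1 he).1
          rw [h2] at h1
          rw [h1.coeff_eq_zero, mul_zero]
          intro h3
          apply hκ
          rw [← h3, Finsupp.degree_eq_sum]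
      -- local generation
      apply gd_of_mul hw hS hS1
      rw [hSF]
      apply gd_sum hw
      intro e he
      obtain ⟨Se, He, hSe, hSe1, hHe, hSeH⟩ := hgen (H e) (hH e) (hval e he)
      apply gd_of_mul hw hSe hSe1
      have e1 : Se * ((∏ i, fam N c g i ^ e i) * H e) =
          ∑ i, (∏ j, fam N c g j ^ (e + Pi.single i 1 : Fin (r + 1) → ℕ) j) * He i := by
        have : Se * ((∏ i, fam N c g i ^ e i) * H e) =
          (∏ i, fam N c g i ^ e i) * (Se * H e) := by ring
        rw [this, hSeH, Finset.mul_sum]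
        apply Finset.sum_congr rfl
        intro i _
        rw [prod_single]
        ring
      rw [e1]
      apply gd_sum hw
      intro i _
      apply gd_base _ _ (hHe i)
      simp only [Pi.add_apply]
      rw [Finset.sum_add_distrib, Finset.sum_pi_single', (Finset.mem_piAntidiag.1 he).1]
      simp
  exact main

end Pool.Agent.H62.GG
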