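import Pool.Agent.H64.GG.TA

/-!
# Integral polynomials: elementary facts
-/

set_option autoImplicit false

namespace Pool.Agent.H62.GG

open NumberField Height Finset Polynomial Pool.Agent.H24.RD Pool.Agent.H23.RDD Pool.Agent.H29.RQ
  Pool.Agent.H29.SX Pool.Agent.H29.LG Pool.Agent.H64.GG

/-- the ring of the elements of absolute value at most one -/
def Ov {M : Type} [Field M] (w : AbsoluteValue M ℝ) (hw : IsNonarchimedean w) : Subring M where
  carrier := {x | w x ≤ 1}
  mul_mem' := by
    intro a b ha hb
    show w (a * b) ≤ 1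
    rw [map_mul]
    exact mul_le_one₀ ha (w.nonneg b) hb
  one_mem' := by
    show w 1 ≤ 1
    rw [map_one]
  add_mem' := by
    intro a b ha hb
    show w (a + b) ≤ 1
    exact (hw a b).trans (max_le ha hb)
  zero_mem' := by
    show w 0 ≤ 1
    rw [map_zero]; norm_num
  neg_mem' := by
    intro a ha
    show w (-a) ≤ 1
    rw [AbsoluteValue.map_neg]
    exact ha

lemma mem_Ov {M : Type} [Field M] {w : AbsoluteValue M ℝ} {hw : IsNonarchimedean w} {x : M} :
    x ∈ Ov w hw ↔ w x ≤ 1 := Iff.rfl

section

variable {K M : Type} [Field K] [Field M] [Algebra K M] {w : AbsoluteValue M ℝ} {σ : Type}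

lemma itg_iff (hw : IsNonarchimedean w) (F : MvPolynomial σ K) :
    Itg w F ↔ ∀ n, algebraMap K M (F.coeff n) ∈ Ov w hw := Iff.rfl

lemma itg_add (hw : IsNonarchimedean w) {F G : MvPolynomial σ K} (hF : Itg w F)
    (hG : Itg w G) : Itg w (F + G) := by
  intro n
  rw [MvPolynomial.coeff_add, map_add]
  exact (Ov w hw).add_mem (hF n) (hG n)

lemma itg_neg {F : MvPolynomial σ K} (hF : Itg w F) : Itg w (-F) := by
  intro n
  rw [MvPolynomial.coeff_neg, map_neg, AbsoluteValue.map_neg]
  exact hF n

lemma itg_sub (hw : IsNonarchimedean w) {F G : MvPolynomial σ K} (hF : Itg w F)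
    (hG : Itg w G) : Itg w (F - G) := by
  rw [sub_eq_add_neg]
  exact itg_add hw hF (itg_neg hG)

lemma itg_zero : Itg w (0 : MvPolynomial σ K) := by
  intro n
  rw [MvPolynomial.coeff_zero, map_zero, map_zero]
  norm_num

lemma itg_C {c : K} (hc : w (algebraMap K M c) ≤ 1) :
    Itg w (MvPolynomial.C c : MvPolynomial σ K) := by
  intro n
  classical
  rw [MvPolynomial.coeff_C]
  split_ifs
  · exact hc
  · rw [map_zero, map_zero]; norm_num

lemma itg_one : Itg w (1 : MvPolynomial σ K) := by
  rw [← MvPolynomial.C_1]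
  apply itg_C
  rw [map_one, map_one]

lemma itg_X (i : σ) : Itg w (MvPolynomial.X i : MvPolynomial σ K) := by
  intro n
  classical
  rw [MvPolynomial.coeff_X']
  split_ifs
  · rw [map_one, map_one]
  · rw [map_zero, map_zero]; norm_num

lemma itg_mul (hw : IsNonarchimedean w) {F G : MvPolynomial σ K} (hF : Itg w F)
    (hG : Itg w G) : Itg w (F * G) := by
  intro n
  classical
  rw [MvPolynomial.coeff_mul, map_sum]
  refine (Ov w hw).sum_mem fun x _ => ?_
  rw [map_mul]
  exact (Ov w hw).mul_mem (hF _) (hG _)

lemma itg_pow (hw : IsNonarchimedean w) {F : MvPolynomial σ K} (hF : Itg w F) (k : ℕ) :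
    Itg w (F ^ k) := by
  induction k with
  | zero => rw [pow_zero]; exact itg_one
  | succ k ih => rw [pow_succ]; exact itg_mul hw ih hF

lemma itg_sum (hw : IsNonarchimedean w) {ι : Type} (s : Finset ι) {F : ι → MvPolynomial σ K}
    (hF : ∀ i ∈ s, Itg w (F i)) : Itg w (∑ i ∈ s, F i) := by
  classical
  induction s using Finset.induction_on with
  | empty => rw [Finset.sum_empty]; exact itg_zero
  | insert a s ha ih =>
    rw [Finset.sum_insert ha]
    exact itg_add hw (hF a (Finset.mem_insert_self _ _))
      (ih fun i hi => hF i (Finset.mem_insert_of_mem hi))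

lemma itg_prod (hw : IsNonarchimedean w) {ι : Type} (s : Finset ι) {F : ι → MvPolynomial σ K}
    (hF : ∀ i ∈ s, Itg w (F i)) : Itg w (∏ i ∈ s, F i) := by
  classical
  induction s using Finset.induction_on with
  | empty => rw [Finset.prod_empty]; exact itg_one
  | insert a s ha ih =>
    rw [Finset.prod_insert ha]
    exact itg_mul hw (hF a (Finset.mem_insert_self _ _))
      (ih fun i hi => hF i (Finset.mem_insert_of_mem hi))

/-- the values of integral polynomials are integral -/
lemma itg_aeval (hw : IsNonarchimedean w) {F : MvPolynomial σ K} (hF : Itg w F) {P : σ → M}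
    (hP : ∀ i, w (P i) ≤ 1) : w (MvPolynomial.aeval P F) ≤ 1 := by
  rw [MvPolynomial.aeval_def, MvPolynomial.eval₂_eq]
  exact (Ov w hw).sum_mem fun n _ => (Ov w hw).mul_mem (hF n)
    ((Ov w hw).prod_mem fun i _ => (Ov w hw).pow_mem (hP i) _)

end

section

variable {K M : Type} [Field K] [Field M] [Algebra K M] {w : AbsoluteValue M ℝ} {r : ℕ}

/-- the coefficients with respect to the first variable -/
lemma itg_succ (F : MvPolynomial (Fin (r + 1)) K) :
    Itg w F ↔ ∀ k, Itg w ((MvPolynomial.finSuccEquiv K r F).coeff k) := by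
  constructor
  · intro h k m
    rw [MvPolynomial.finSuccEquiv_coeff_coeff]
    exact h _
  · intro h n
    have := h (n 0) n.tail
    rw [MvPolynomial.finSuccEquiv_coeff_coeff, Finsupp.cons_tail] at this
    exact this

/-- the value in terms of the coefficients with respect to the first variable -/
lemma aeval_succ (β : M) (θ : Fin r → M) (F : MvPolynomial (Fin (r + 1)) K) :
    MvPolynomial.aeval (Fin.cons β θ : Fin (r + 1) → M) F =
      ((MvPolynomial.finSuccEquiv K r F).map
        (MvPolynomial.aeval θ : MvPolynomial (Fin r) K →ₐ[K] M).toRingHom).eval β := by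
  induction F using MvPolynomial.induction_on with
  | C a =>
    rw [MvPolynomial.finSuccEquiv_apply]
    simp
  | add p q hp hq => rw [map_add, hp, hq, map_add, Polynomial.map_add, Polynomial.eval_add]
  | mul_X p i hp =>
    rw [map_mul, hp, map_mul, Polynomial.map_mul, Polynomial.eval_mul, MvPolynomial.aeval_X]
    congr 1
    refine Fin.cases ?_ (fun j => ?_) i
    · rw [MvPolynomial.finSuccEquiv_X_zero]; simp
    · rw [MvPolynomial.finSuccEquiv_X_succ]; simp

end

end Pool.Agent.H62.GG
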